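import Pool.Agent.H85.RP.Fix

/-!
# Automorphisms of affine spaces which preserve all coordinates but two

`C` is any class of groups with the closure properties `ClosedE C` and `AcylClosed C` which contains the
solvable groups and the groups `F ⋊ Z` for all free groups `F` and all automorphisms of `F` (`FbC C`). All this is
known for the class of the groups which satisfy the K-theoretic Farrell–Jones conjecture with
coefficients in additive categories and finite wreath products (Bartels, Lück, Reich, Wegner, Knopf,
Bestvina, Fujiwara, Wigglesworth, Brück, Kielak, Wu), and this class contains `GL₂(K)` for the number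
fields `K` (Rüping), hence for all fields `K` which are algebraic over the rational numbers.

`Aut2 A` is the group of the automorphisms of the `A`-algebra `A[x, y]`, and `FixV A σ` is the group of
the automorphisms of the `A`-algebra `A[x, y, z_s : s ∈ σ]` which fix all the variables `z_s`. It is
isomorphic to the group `Aut2 (A[z_s : s ∈ σ])`.

1. Let `K` be a field of characteristic zero such that `GL₂(K)` is in `C`. For all `n` the group of the
   automorphisms of the `K`-algebra `K[x, y, z_1, …, z_n]` which fix `z_1, …, z_n` is in `C`.
2. If `A` is a principal ideal domain of characteristic zero then `Aut2 A` is in `C` if and only if `GL₂(A)`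
   is; and then the groups `Aut2 (A[σ])` and `FixV A σ` are in `C` for all sets `σ` of variables.
3. Let `D` be a domain of characteristic zero. Then `Aut2 (D[σ])` is in `C` if and only if `Aut2 D` is.
4. Let `A` be a commutative ring (zero divisors and nilpotent elements are allowed, and `A` need not be
   noetherian) such that every minimal prime ideal of `A` is the kernel of a homomorphism to a domain `D`
   of characteristic zero with `Aut2 D` in `C`. Then the groups `Aut2 (A[σ])` and `FixV A σ` are in `C`.
5. Let `A` be a noetherian domain of characteristic zero with the field of fractions `K`. If the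
   stabilizers `LS M` in `GL₂(K)` of all the lattices `M` in `K²` are in `C`, then `Aut2 A` is in `C`.

So the Farrell–Jones conjecture holds for the group of all the automorphisms of the affine space of any
dimension over the field of the algebraic numbers which preserve all coordinates but two; for the affine
space of dimension three this group contains for example the automorphism of Nagata, which is not tame. The
generic fibre is a plane over a field of rational functions, and it is not known whether `GL₂` of such
a field is a Farrell–Jones group.

Outline of the proof. Let `K` be the field of fractions of `D[z]` and `L` that of `D`. A finitely generated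
subgroup of `Aut2 (D[z])` acts acylindrically on the tree of the group of the automorphisms of `K[x, y]`
(theorem of Jung in characteristic zero, and the theorem of helper34, `MP_2a0850_gt.PlanePolynomialAutomorphisms`).
The stabilizers of the vertices are solvable, or conjugate over `K` to groups `S` of affine automorphisms. Let
`u`, `v` be coordinates of the plane over `K` in which `S` is affine. The affine functions of `u`, `v` with
coefficients in `L[z]` are a lattice, since the elements of `S` preserve `L[z][x, y]`; the linear parts of
the elements of `S` preserve a free lattice in `K²`, and they are congruent to `1` modulo `z` on this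
lattice if the element is the identity at `z = 0`. So `S`, up to an abelian normal subgroup of
translations, embeds in `GL₂(L[z]) × Aut2 D`, in such a way that the kernel of the second projection is in the
congruence subgroup modulo `z`, and the theorem on rings with one place at infinity
(`MP_490288_al.RankTwoOnePlace`) applies.
-/

set_option autoImplicit false

namespace Pool.Agent.Results.MP_6374fb_al.AllCoordinatesButTwo

open Matrix MvPolynomial
open Pool.Agent.Y110.FJ (ClosedE)
open Pool.Agent.H34.PT (AcylClosed)
open Pool.Agent.K7.H10.PA (Aut2)
open Pool.Agent.R684.FP (FbC)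
open Pool.Agent.H85.RP (IsLat LS GoodD FixV)

/-- noetherian domains: `Aut2 A` is in the class if the stabilizers of the lattices are -/
def Noeth (C : ∀ (G : Type) [Group G], Prop) : Prop :=
  ∀ (A K : Type) [CommRing A] [IsDomain A] [IsNoetherianRing A] [CharZero A] [Field K]
    [Algebra A K] [IsFractionRing A K],
    (∀ M : Submodule A (Fin 2 → K), IsLat M → C (LS M)) → C (Aut2 A)

/-- principal ideal domains -/
def Principal (C : ∀ (G : Type) [Group G], Prop) : Prop :=
  ∀ (A : Type) [CommRing A] [IsDomain A] [IsPrincipalIdealRing A] [CharZero A],
    (C (Aut2 A) ↔ C (GL (Fin 2) A)) ∧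
    (C (GL (Fin 2) A) → ∀ σ : Type, C (Aut2 (MvPolynomial σ A)) ∧ C (FixV A σ))

theorem result (C : ∀ (G : Type) [Group G], Prop) (hC : ClosedE C) (hA : AcylClosed C)
    (hF : FbC C) (hS : ∀ (S : Type) [Group S], Group.IsSolvable S → C S) :
    (∀ (K : Type) [Field K] [CharZero K], C (GL (Fin 2) K) → ∀ n : ℕ, C (FixV K (Fin n))) ∧
    Principal C ∧
    (∀ (D : Type) [CommRing D] [IsDomain D] [CharZero D] (σ : Type),
      C (Aut2 (MvPolynomial σ D)) ↔ C (Aut2 D)) ∧
    (∀ (A : Type) [CommRing A], GoodD C A → ∀ σ : Type,
      C (Aut2 (MvPolynomial σ A)) ∧ C (FixV A σ)) ∧
    Noeth C := by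
  have h3 : ∀ (D : Type) [CommRing D] [IsDomain D] [CharZero D] (σ : Type),
      C (Aut2 (MvPolynomial σ D)) ↔ C (Aut2 D) := by
    intro D _ _ _ σ
    exact ⟨Pool.Agent.H85.RP.of_inj hC MvPolynomial.C (MvPolynomial.C_injective σ D),
      fun h => Pool.Agent.H85.RP.vars hC hA hF hS h σ⟩
  have h2 : Principal C := by
    intro A _ _ _ _
    refine ⟨⟨Pool.Agent.H85.RP.gl_of_aut hC, Pool.Agent.H85.RP.pid hC hA hS⟩, fun h σ => ?_⟩
    have h1 : C (Aut2 (MvPolynomial σ A)) := (h3 A σ).2 (Pool.Agent.H85.RP.pid hC hA hS h)
    exact ⟨h1, (Pool.Agent.H85.RP.fixV_iff hC).2 h1⟩
  refine ⟨fun K _ _ h n => ((h2 K).2 h (Fin n)).2, h2, h3, ?_, ?_⟩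
  · intro A _ h σ
    have h1 : C (Aut2 (MvPolynomial σ A)) := (h.poly hC hA hF hS σ).aut hC hS
    exact ⟨h1, (Pool.Agent.H85.RP.fixV_iff hC).2 h1⟩
  · intro A K _ _ _ _ _ _ _ h
    exact Pool.Agent.H85.RP.crit (K := K) hC hA hS h

end Pool.Agent.Results.MP_6374fb_al.AllCoordinatesButTwo
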