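import Pool.Agent.H91.CZ.Pres

/-!
# Groups presented by conjugation relations and Artin relations, and the Farrell–Jones conjecture

`C` is any class of groups with the closure properties `ClosedE C` (`Pool.Agent.Y110.FJ.Stm`): it contains
`ℤ` and is closed under groups that embed, finite products, free products, overgroups of finite index,
directed colimits, and it satisfies the extension criterion (if `G` maps onto a group `Q` in `C` and the
preimages of the virtually cyclic subgroups of `Q` are in `C`, then `G` is in `C`). We suppose that `C`
contains the Coxeter groups of finite rank. All this is known for the class of the groups that satisfy the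
K-theoretic Farrell–Jones conjecture with coefficients in additive categories and finite wreath products;
for the groups of this class the assertion of the problem holds.

Let `Q` be a group and `V` a set of letters, with ranks `rk v` in a partially ordered set and colours
`κ v` in a set `B`. A symmetric matrix `Λ` on `B` gives the label `Λ.L a b` of two colours (a natural number
different from `1`; `0` stands for infinity); there is also a label `Λ.L b b` for every colour. Let `c` be
even. The group `AG c S` is generated by `Q` and the letters, with the relations `v ^ c = 1` (no relation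
for `c = 0`) and the relators in `S`, which are of two kinds (`IsArt`):

* `w v w⁻¹ = z` (conjugation relations), where `v` and `z` have the same colour,
* `(w v w⁻¹) z (w v w⁻¹) ⋯ = z (w v w⁻¹) z ⋯`, with `Λ.L (κ v) (κ z)` factors on both sides (Artin
  relations),

where `v` and `z` are letters of the same rank, and `w` is any element of the subgroup which is generated by
`Q` and the letters of rank larger than the rank of `v` (`High`).

**Theorem.** (1) The group `Q` embeds in `AG c S`. Suppose that `C` contains the groups `Sh (pull Λ φ) c` of
all finite coloured sets `φ : A → B` without two different elements of label infinity. Then `AG c S` is in `C`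
if and only if `Q` is. Here `Sh N c` is the Artin group of the Coxeter matrix `N` for `c = 0`, and its quotient
by the `c`-th powers of the generators for `c > 0`.

(2) Let `X` be a set of labels such that `C` contains the Artin groups of finite rank with all labels in `X`.
If all labels `Λ.L a b` are in `X` or infinite, then `AG 0 S` is in `C` if and only if `Q` is.

(3) Suppose that `C` contains the Artin groups of finite rank with all labels at least `5` (these groups act
properly and cocompactly on CAT(0) spaces, by Haettel, so this is known for the Farrell–Jones conjecture). Let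
`Q` be any group, `V` any set, `L v z` symmetric labels which are `0` or at least `5`, and `T` any set of
triples `(q, v, z)`. The group `BraidedGroup L T` is generated by `Q` and the letters `v` in `V`, with the
Artin relations of length `L v z` between `q v q⁻¹` and `z` for `(q, v, z)` in `T`. It contains `Q`, and it is
in `C` if and only if `Q` is.

(4) Let `M` be a Coxeter matrix on any set `B`, `c` even, and suppose that `Sh M c` is in `C` (for example the
Artin groups of type FC, which are Helly groups, by Huang and Osajda). If the relators in `S` are of the form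
`w v w⁻¹ = z` for letters `v`, `z` with the same colour, or Artin relations of length `M (κ v) (κ z)` between
`w v w⁻¹` and `z` for letters `v`, `z` with different colours, then `AG c S` is in `C` if and only if `Q` is.

Outline of the proof. First let all letters have the same rank. Let `X` be the set of the pairs `(b, x)`,
where `x` is a conjugate by an element of `Q` of a letter of colour `b`, in the group `K` that is presented.
Two different elements `(a, x)` and `(b, y)` of `X` get the label `Λ.L a b` if the Artin relation of this
length holds for `x` and `y` in `K`, and `0` otherwise. This is a Coxeter matrix on `X`, invariant under the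
action of `Q`. The letters define a homomorphism of `K` to the semidirect product of the group `Sh` of this
matrix and `Q`, and this has a left inverse, so it is injective. The semidirect product is in `C` by the
theorem of the library on extensions by these groups, because the finite sets without the label infinity are
coloured sets as in (1). If there are finitely many ranks one argues by induction, with the group without the
letters of small rank in the role of `Q`; it is a retract. In general the group is a directed colimit of
groups with finitely many relators from `S`, which involve finitely many ranks, and these can be replaced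
by natural numbers.
-/

set_option autoImplicit false

namespace Pool.Agent.Results.MP_6374fb_al.ArtinPresentations

open Monoid
open Pool.Agent.Y110.FJ (ClosedE)
open Pool.Agent.H91.CZ
open Pool.Agent.H91.CP (lt High)
open Pool.Agent.Helper741 (alt map_alt)
open Pool.Agent.X201

/-- the relators `alt u z m * (alt z u m)⁻¹` with `u = q v q⁻¹` and `m = L v z`, for `(q, v, z)` in `T` -/
def braidRel {Q : Type} [Group Q] {V : Type} (L : V → V → ℕ) (T : Set (Q × V × V)) :
    Set (Coprod Q (FreeGroup V)) :=
  {x | ∃ q v z, (q, v, z) ∈ T ∧
    x = alt (Coprod.inl q * Coprod.inr (FreeGroup.of v) * (Coprod.inl q)⁻¹)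
        (Coprod.inr (FreeGroup.of z)) (L v z) *
      (alt (Coprod.inr (FreeGroup.of z))
        (Coprod.inl q * Coprod.inr (FreeGroup.of v) * (Coprod.inl q)⁻¹) (L v z))⁻¹}

/-- the group generated by `Q` and the letters `v` in `V` with the Artin relations of length `L v z` between
`q v q⁻¹` and `z` for `(q, v, z)` in `T` -/
abbrev BraidedGroup {Q : Type} [Group Q] {V : Type} (L : V → V → ℕ) (T : Set (Q × V × V)) : Type :=
  Coprod Q (FreeGroup V) ⧸ Subgroup.normalClosure (braidRel L T)

open scoped Classical in
/-- the labels of a Coxeter matrix, with label infinity for two letters of the same colour -/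
noncomputable def offLab {B : Type} (M : CoxeterMatrix B) : Lab B where
  L := fun a b => if a = b then 0 else M a b
  symm := by
    intro a b
    by_cases h : a = b
    · rw [if_pos h, if_pos h.symm]
    · rw [if_neg h, if_neg (fun h' => h h'.symm), M.symmetric]
  ne_one := by
    intro a b
    by_cases h : a = b
    · rw [if_pos h]
      exact zero_ne_one
    · rw [if_neg h]
      exact M.off_diagonal a b h

section proofs

variable {C : ∀ (G : Type) [Group G], Prop}

theorem offLab_ne {B : Type} (M : CoxeterMatrix B) {a b : B} (h : a ≠ b) :
    (offLab M).L a b = M a b := if_neg h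

theorem offLab_self {B : Type} (M : CoxeterMatrix B) (a : B) : (offLab M).L a a = 0 := if_pos rfl

theorem cliques_off (hC : ClosedE C) {B : Type} (M : CoxeterMatrix B) {c : ℕ} (hc : Even c)
    (hM : C (SH.Sh M c)) : Cliques C (offLab M) c := by
  intro A hA φ h
  have hφ : Function.Injective φ := by
    intro i j hij
    by_contra hne
    apply h i j hne
    rw [hij, offLab_self]
  have hfin : (Set.range φ).Finite := Set.finite_range φ
  have : Finite (Set.range φ) := hfin.to_subtype
  let M' := AT.subM M (Function.Embedding.subtype (· ∈ Set.range φ))
  let e : A ↪ (Set.range φ) := ⟨fun a => ⟨φ a, ⟨a, rfl⟩⟩, fun a b hab =>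
    hφ (congrArg Subtype.val hab)⟩
  have h1 : AT.subM M' e = pull (offLab M) φ := by
    have h2 : ∀ i j : A, AT.subM M' e i j = pull (offLab M) φ i j := by
      intro i j
      by_cases hij : i = j
      · subst hij
        rw [CoxeterMatrix.diagonal, CoxeterMatrix.diagonal]
      · rw [pull_ne (offLab M) φ hij, offLab_ne M (fun h' => hij (hφ h'))]
        rfl
    exact CoxeterMatrix.ext (funext fun i => funext fun j => h2 i j)
  rw [← h1]
  refine hC.base.of_injective _ _ ((SH.inc M c (Function.Embedding.subtype
    (· ∈ Set.range φ))).comp (SH.inc M' c e)) ?_ hM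
  intro u v huv
  exact SH.inc_injective' M' hc e (SH.inc_inj_fin M hc hfin huv)

theorem cliques_set {X : Set ℕ} {c : ℕ}
    (hX : ∀ (A : Type) (_ : Finite A) (N : CoxeterMatrix A), (∀ i j, i ≠ j → N i j ∈ X) →
      C (SH.Sh N c)) {B : Type} (Λ : Lab B) (hΛ : ∀ a b, Λ.L a b = 0 ∨ Λ.L a b ∈ X) :
    Cliques C Λ c := by
  intro A hA φ h
  refine hX A hA _ fun i j hij => ?_
  rw [pull_ne Λ φ hij]
  exact (hΛ _ _).resolve_left (h i j hij)

variable {Q : Type} [Group Q] {V : Type}

theorem braid_isArt (Λ : Lab V) (T : Set (Q × V × V)) :
    ∀ x ∈ braidRel Λ.L T, IsArt (fun v : V => v) Λ (fun _ : V => ()) x := by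
  rintro x ⟨q, v, z, -, rfl⟩
  exact ⟨Coprod.inl q, v, z, Subgroup.subset_closure (Or.inl ⟨_, rfl⟩), rfl, Or.inr rfl⟩

theorem pows_zero (S : Set (Coprod Q (FreeGroup V))) :
    Subgroup.normalClosure (S ∪ pows Q V 0) = Subgroup.normalClosure S := by
  apply le_antisymm
  · refine Subgroup.normalClosure_le_normal ?_
    rintro x (hx | ⟨v, rfl⟩)
    · exact Subgroup.subset_normalClosure hx
    · rw [pow_zero]
      exact one_mem _
  · exact Subgroup.normalClosure_mono Set.subset_union_left

end proofs

/-- Let `C` be a class of groups with the closure properties `ClosedE C` which contains the Coxeter groups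
of finite rank.

1. Let `Q` be a group, `κ : V → B` the colours and `rk : V → P` the ranks of the letters, `Λ` a matrix of
labels on `B`, `c` even, and let `S` be a set of relators of the forms `w v w⁻¹ z⁻¹` (`κ v = κ z`) and
`alt u z m * (alt z u m)⁻¹` with `u = w v w⁻¹` and `m = Λ.L (κ v) (κ z)`, where `v` and `z` are letters of the
same rank and `w` is in the subgroup generated by `Q` and the letters of larger rank. Then `Q` embeds in
`AG c S`, and if `C` contains the groups `Sh (pull Λ φ) c` of the finite coloured sets `φ` without label
infinity, then `AG c S` is in `C` if and only if `Q` is.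
2. If the labels of `Λ` are infinite or in a set `X` such that the Artin groups of finite rank with labels in
`X` are in `C`, then `AG 0 S` is in `C` if and only if `Q` is.
3. If the Artin groups of finite rank with all labels `≥ 5` are in `C`, then the group generated by any group
`Q` and letters with any set of Artin relations of lengths `L v z ≥ 5` between `q v q⁻¹` and `z`, `q ∈ Q`,
contains `Q` and is in `C` if and only if `Q` is.
4. If `Sh M c` is in `C` and all Artin relators in `S` are for letters of different colours, with the labels
of `M`, then `AG c S` is in `C` if and only if `Q` is. -/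
theorem result (C : ∀ (G : Type) [Group G], Prop) (hC : ClosedE C)
    (hcox : ∀ (A : Type) (_ : Finite A) (M : CoxeterMatrix A), C M.Group) :
    (∀ (Q : Type) [Group Q] (V B P : Type) [PartialOrder P] (κ : V → B) (Λ : Lab B) (rk : V → P)
      (c : ℕ), Even c → ∀ S : Set (Coprod Q (FreeGroup V)), (∀ x ∈ S, IsArt κ Λ rk x) →
      Function.Injective (fun q : Q => ((Coprod.inl q : Coprod Q (FreeGroup V)) : AG c S)) ∧
      ((∀ (A : Type) (_ : Finite A) (φ : A → B), (∀ i j, i ≠ j → Λ.L (φ i) (φ j) ≠ 0) →
        C (SH.Sh (pull Λ φ) c)) → (C (AG c S) ↔ C Q))) ∧
    (∀ X : Set ℕ, (∀ (A : Type) (_ : Finite A) (N : CoxeterMatrix A),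
      (∀ i j, i ≠ j → N i j ∈ X) → C (SH.Sh N 0)) →
      ∀ (Q : Type) [Group Q] (V B P : Type) [PartialOrder P] (κ : V → B) (Λ : Lab B) (rk : V → P),
      (∀ a b, Λ.L a b = 0 ∨ Λ.L a b ∈ X) →
      ∀ S : Set (Coprod Q (FreeGroup V)), (∀ x ∈ S, IsArt κ Λ rk x) → (C (AG 0 S) ↔ C Q)) ∧
    ((∀ (A : Type) (_ : Finite A) (N : CoxeterMatrix A), (∀ i j, i ≠ j → 5 ≤ N i j) →
      C (SH.Sh N 0)) →
      ∀ (Q : Type) [Group Q] (V : Type) (L : V → V → ℕ) (T : Set (Q × V × V)),
      (∀ v z, L v z = L z v) → (∀ v z, L v z = 0 ∨ 5 ≤ L v z) →
      Function.Injective (fun q : Q =>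
        ((Coprod.inl q : Coprod Q (FreeGroup V)) : BraidedGroup L T)) ∧
      (C (BraidedGroup L T) ↔ C Q)) ∧
    (∀ (B : Type) (M : CoxeterMatrix B) (c : ℕ), Even c → C (SH.Sh M c) →
      ∀ (Q : Type) [Group Q] (V P : Type) [PartialOrder P] (κ : V → B) (rk : V → P)
      (S : Set (Coprod Q (FreeGroup V))), (∀ x ∈ S, IsArt κ (offLab M) rk x) →
      (C (AG c S) ↔ C Q)) := by
  have hcox' : ∀ (A : Type) [Finite A] (M : CoxeterMatrix A), C M.Group := fun A h M => hcox A h M
  refine ⟨fun Q _ V B P _ κ Λ rk c hc S hS => ⟨inQ_injective hS, fun hcl =>
    ag_iff hC hcox' hc hcl hS⟩, fun X hX Q _ V B P _ κ Λ rk hΛ S hS =>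
    ag_iff hC hcox' Even.zero (cliques_set hX Λ hΛ) hS, ?_, fun B M c hc hM Q _ V P _ κ rk S hS =>
    ag_iff hC hcox' hc (cliques_off hC M hc hM) hS⟩
  intro hX Q _ V L T hsymm h5
  obtain ⟨Λ, hΛ⟩ : ∃ Λ : Lab V, Λ.L = L := ⟨⟨L, hsymm, fun a b h => by
    rcases h5 a b with h1 | h1 <;> omega⟩, rfl⟩
  subst hΛ
  have e := pows_zero (braidRel Λ.L T)
  have h1 := inQ_injective (c := 0) (braid_isArt Λ T)
  have h2 := ag_iff hC hcox' (c := 0) Even.zero (cliques_set (X := {m | 5 ≤ m}) hX Λ h5)
    (braid_isArt Λ T)
  refine ⟨fun a b hab => h1 ?_, ?_⟩
  · have h3 := (QuotientGroup.eq (s := Subgroup.normalClosure (braidRel Λ.L T))).1 hab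
    exact (QuotientGroup.eq
      (s := Subgroup.normalClosure (braidRel Λ.L T ∪ pows Q V 0))).2 (by
        rw [e]
        exact h3)
  · refine Iff.trans ?_ h2
    exact ⟨fun h => hC.base.of_injective _ _ (QuotientGroup.quotientMulEquivOfEq e).toMonoidHom
        (QuotientGroup.quotientMulEquivOfEq e).injective h,
      fun h => hC.base.of_injective _ _
        (QuotientGroup.quotientMulEquivOfEq e.symm).toMonoidHom
        (QuotientGroup.quotientMulEquivOfEq e.symm).injective h⟩

end Pool.Agent.Results.MP_6374fb_al.ArtinPresentations
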