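import Pool.Agent.H86.FJP.Semi

/-!
# All automorphisms of the affine plane over commutative rings

`C` is any class of groups with the closure properties `ClosedE C` and `AcylClosed C` which contains the
solvable groups and the groups `F ⋊ Z` for all free groups `F` and all automorphisms of `F` (`FbC C`). All this is
known for the class of the groups which satisfy the K-theoretic Farrell–Jones conjecture with
coefficients in additive categories and finite wreath products (Bartels, Lück, Reich, Wegner, Knopf,
Bestvina, Fujiwara, Wigglesworth, Brück, Kielak, Wu), and this class contains `GL₂(K)` for the number
fields `K` (Rüping), hence for all fields `K` which are algebraic over the rational numbers.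

`Aut2 A` is the group of the automorphisms of the `A`-algebra `A[x, y]`, `TA A` is its subgroup of the
elements which become tame over every field to which `A` maps; by the theorem of Jung and van der Kulk
`TA A = Aut2 A`, and for `ℚ`-algebras this is proved here. `Good C A` says that every minimal prime
ideal of `A` is the kernel of a homomorphism to a field `K` such that `K` has characteristic zero and
`GL₂(K)` is in `C`, or all finitely generated subrings of `K` are finite. For the class above it holds if
the residue fields of the minimal primes are algebraic over their prime fields; for instance if `A` is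
integral over `ℤ`, or algebraic over a field which is algebraic over its prime field; `A` need not be
reduced or noetherian.

1. If `Good C A` then `TA A` is in `C`.
2. Let `A` be a `ℚ`-algebra with `Good C A`, and let `G` be a group of automorphisms of the ring
   `A[x, y]` which preserve `A`, such that the group `Γ` of the induced automorphisms of `A` is in `C`
   and has finite orbits on `A`. Then `G` is in `C`. For `Γ = 1` these are the groups of automorphisms
   of the `A`-algebra.
3. Let `K` be a field, algebraic over the rational numbers, with `GL₂(K)` in `C`. A group of
   automorphisms of the ring `K[x, y]` is in `C` if the induced group of automorphisms of `K` is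
   (`ind K φ` is the automorphism of `K` induced by the automorphism `φ` of the ring `K[x, y]`).
4. If `K` is a number field, the group of all automorphisms of the ring `K[x, y]` is in `C` if and only
   if `GL₂(K)` is.

Outline of the proof. For fields of characteristic zero the group of the tame automorphisms is in `C` by
the theorem of helper34 (`MP_2a0850_gt.PlanePolynomialAutomorphisms`), which uses the action on a tree;
for fields whose finitely generated subrings are finite the library has `PlaneAutomorphisms`. The
automorphisms of a polynomial ring over a noetherian ring map to the product of the groups over the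
residue fields of the minimal primes with solvable kernel; an arbitrary ring is the union of its
finitely generated subrings, whose minimal primes are contractions of minimal primes. In 2 a finitely
generated subgroup `H` of `G` preserves `S[x, y]` for a finitely generated subring `S` of `A` which is
generated by finitely many orbits of `Γ`, so that a subgroup of finite index of `H` embeds in
`Aut2 S × Γ`. The theorem of Jung in characteristic zero is adapted from the library.
-/

set_option autoImplicit false

namespace Pool.Agent.Results.MP_6374fb_al.AutomorphismsOverRings

open Matrix
open Pool.Agent.Y110.FJ (ClosedE)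
open Pool.Agent.H34.PT (AcylClosed)
open Pool.Agent.K7.H10.PA (Aut2 TA LocFin)
open Pool.Agent.R684.FP (FbC)
open Pool.Agent.H86.FJP (Good ind)

/-- `G` is a group of automorphisms of the ring `A[x, y]` which preserve `A`, and the group of the induced
automorphisms of `A` has finite orbits on `A` and is in the class `C` -/
def Semilinear (C : ∀ (G : Type) [Group G], Prop) (A : Type) [CommRing A] (G : Type) [Group G] :
    Prop :=
  ∃ (ρ : G →* RingAut (MvPolynomial (Fin 2) A)) (σ : G →* RingAut A), Function.Injective ρ ∧
    (∀ g a, ρ g (MvPolynomial.C a) = MvPolynomial.C (σ g a)) ∧
    (∀ a : A, (Set.range fun g => σ g a).Finite) ∧ C σ.range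

theorem result (C : ∀ (G : Type) [Group G], Prop) (hC : ClosedE C) (hA : AcylClosed C)
    (hF : FbC C) (hS : ∀ (S : Type) [Group S], Group.IsSolvable S → C S) :
    (∀ (A : Type) [CommRing A], Good C A → C (TA A)) ∧
    (∀ (A : Type) [CommRing A] [Algebra ℚ A], Good C A →
      TA A = ⊤ ∧ ∀ (G : Type) [Group G], Semilinear C A G → C G) ∧
    (∀ (K : Type) [Field K] [CharZero K] [Algebra.IsAlgebraic ℚ K], C (GL (Fin 2) K) →
      ∀ G : Subgroup (RingAut (MvPolynomial (Fin 2) K)), C (G.map (ind K)) → C G) ∧
    (∀ (K : Type) [Field K] [NumberField K],
      C (RingAut (MvPolynomial (Fin 2) K)) ↔ C (GL (Fin 2) K)) := by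
  refine ⟨?_, ?_, ?_, ?_⟩
  · intro A _ h
    exact Pool.Agent.H86.FJP.ring hC hA hF hS h
  · intro A _ _ h
    refine ⟨?_, ?_⟩
    · rw [eq_top_iff]
      exact fun φ _ => Pool.Agent.H86.BCP.TA_top φ
    · rintro G _ ⟨ρ, σ, h1, h2, h3, h4⟩
      exact Pool.Agent.H86.FJP.semi hC hA hS h ρ σ h2 h1 h3 h4
  · intro K _ _ _ h G h1
    exact Pool.Agent.H86.FJP.field_semi hC hA hS h G h1
  · intro K _ _
    exact Pool.Agent.H86.FJP.number_field hC hA hS

end Pool.Agent.Results.MP_6374fb_al.AutomorphismsOverRings
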