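import Pool.Agent.H53.BR.FJ
import Pool.Agent.H53.IL.FCor

/-!
# Virtual braid groups, virtual Artin groups and virtual Shephard groups, and the Farrell–Jones
conjecture in algebraic K-theory

`C` is any class of groups with the closure properties `ClosedE C` (subgroups, finite products, free
products, overgroups of finite index, directed colimits, and the extension criterion: `G` is in `C` if
`G → Q` is onto, `Q` is in `C` and the preimages of the virtually cyclic subgroups of `Q` are in `C`)
which contains the Coxeter groups of finite rank. All this is known for the class of the groups which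
satisfy the K-theoretic Farrell–Jones conjecture with coefficients in additive categories and finite
wreath products, and this class contains the semidirect products of free groups of finite rank with the
infinite cyclic group (Bestvina, Fujiwara and Wigglesworth); for groups in this class the assertion of
the problem holds.

`VirtualArtin M` is the virtual Artin group of the Coxeter matrix `M` (the entry `0` stands for
infinity), defined by Bellingeri, Paris and Thiel: it has generators `σ i` and `τ i`, the `σ i` satisfy
the relations of the Artin group, the `τ i` those of the Coxeter group, and, for `i ≠ j` with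
`m = M i j ≠ 0`, `v σ k = σ i v`, where `v = ⋯ τ j τ i` is the alternating product
`alt (τ j) (τ i) (m - 1) = τ j τ i τ j ⋯` with `m - 1` factors, and `k = i` for even `m`, `k = j` for odd
`m`. For `M = CoxeterMatrix.A n` it is the virtual braid group on `n + 1` strands.

Let `p i` be even numbers (`0` stands for infinity) with `p i = p j` if `M i j` is odd.
`VirtualShephard M p` is the quotient of `VirtualArtin M` by the relations `σ i ^ p i = 1`. For `p = 0` it
is the virtual Artin group; in type `A` it is the virtual version of the truncated braid groups of
Coxeter, and for `p = 2` this is the flat virtual braid group. `Shephard N q` is the quotient of the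
Artin group of `N` by the relations `v ^ q v = 1`.

A `Block` of `M` is a set `X` of generators without the label infinity whose Coxeter graph is connected;
`sub M X` is the Coxeter matrix of `X`.

The Coxeter matrices:
- `CoxeterMatrix.A n`, `CoxeterMatrix.B n` are those of types `A_n` and `B_n`, `typeD n` that of type
  `D_n`, `n ≥ 4`: the path `0, …, n - 2`, with the vertex `n - 1` joined to `n - 3`;
- `cyc n`, `n ≥ 3`, is the cycle of length `n`, type affine `A_{n-1}`;
- `cla n a b` is the path `0, …, n`, with a second copy of the vertex `0` if `a = true`, of the vertex
  `n` if `b = true` (the copies have the same neighbours, and the label `2` with each other); the labels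
  of the edges are `3`, but `4` at the end `0` if `a = false`, and at the end `n` if `b = false`. This
  is type affine `C_n` for `a = b = false`, `n ≥ 2`; affine `B_{n+1}` for `a ≠ b` (for `n = 1` this is
  affine `C_2 = B_2`); affine `D_{n+2}` for `a = b = true` (for `n = 1` this is the cycle `cyc 4`).
The orders: `ordB n c e` is `c` at the long simple roots of `B_n` and `e` at the short one;
`ordCl n a b c e e'` is `c` at the long simple roots, `e` at the end `0` if `a = false`, and `e'` at the
end `n` if `b = false`.

Outline of the proof. By a lemma of Deodhar, and of Brink and Howlett, the virtual Shephard group is the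
semidirect product of the Shephard group whose generators are the roots, and the Coxeter group, which
permutes them; the order of a root `w α s` is `p s`. Shephard groups with admissible orders have a
homomorphism to a Coxeter group over the set of the roots which is injective on the vertex groups and
whose kernel permits a reduction to the sets of roots without the label infinity, also for extensions
which permute the generators. Hence only finite irreducible sets of roots without the label infinity
matter. If the label of `s` and `t` is infinite, the Coxeter group is an amalgamated product of the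
parabolic subgroups of the complements of `s` and of `t`, and acts on a tree. Two roots in such a set lie
in a common conjugate of one of the two parabolic subgroups; by the Helly property of the tree all the
roots of the set do. So the set is, up to the Coxeter group, a set of roots of a block. If all labels are
even or infinite, two simple roots in the same orbit are equal, and such a set is a subset of the simple
roots, with labels. In rank two with a label `m ≥ 4` there are no three such roots, because their Gram
matrix would be regular. In the classical types the Coxeter group permutes the coordinates up to sign,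
and the set is a part of a cycle or of a diagram `cla n a b`, which is found by following the path of the
coordinates; all these diagrams occur. The Artin groups of types `B` and affine `A` embed in the
semidirect product of the free group and the braid group; the braid group on `n + 1` strands embeds in
the wreath product of this semidirect product, for `n` strands, with the symmetric group.
-/

set_option autoImplicit false

namespace Pool.Agent.Results.MP_6374fb_al.VirtualShephardGroups

open Pool.Agent.Y110.FJ Pool.Agent.Helper741 Pool.Agent.TH107 Pool.Agent.H53.VA Pool.Agent.H53.CL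
open Pool.Agent.H53.IL

/-- the Shephard group of `M` with the orders `p` (`0` stands for infinity) -/
abbrev Shephard {V : Type} (M : CoxeterMatrix V) (p : V → ℕ) : Type :=
  Artin M ⧸ Subgroup.normalClosure (Set.range fun v => Artin.gen M v ^ p v)

/-- the virtual Shephard group of `M` with the orders `p` (`0` stands for infinity) -/
abbrev VirtualShephard {V : Type} (M : CoxeterMatrix V) (p : V → ℕ) : Type :=
  VirtualArtin M ⧸ Subgroup.normalClosure (Set.range fun v => sig M v ^ p v)

/-- the orders are even, and equal for conjugate generators -/
def Admissible {V : Type} (M : CoxeterMatrix V) (p : V → ℕ) : Prop :=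
  (∀ v, Even (p v)) ∧ ∀ v w, Odd (M v w) → p v = p w

/-- the semidirect product of the free group of rank `m` with the infinite cyclic group, which acts by
the automorphism `φ` -/
abbrev FreeByCyclic (m : ℕ) (φ : MulAut (FreeGroup (Fin m))) : Type :=
  FreeGroup (Fin m) ⋊[zpowersHom _ φ] Multiplicative ℤ

section

variable (C : ∀ (G : Type) [Group G], Prop)

/-- the Shephard group of `M` with the orders `p` is in `C` -/
def Sh {V : Type} (M : CoxeterMatrix V) (p : V → ℕ) : Prop := C (Shephard M p)

/-- the virtual Shephard group of `M` with the orders `p` is in `C` -/
def VSh {V : Type} (M : CoxeterMatrix V) (p : V → ℕ) : Prop := C (VirtualShephard M p)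

/-- the statements about one Coxeter matrix with orders -/
def OneMatrix {V : Type} [Fintype V] (M : CoxeterMatrix V) (p : V → ℕ) : Prop :=
  (LocallyReducible M → (∀ i j, M i j ≠ 3) → VSh C M p) ∧
  ((∀ i, p i = 2) → VSh C M p) ∧
  (VSh C M p ↔ ∀ X : Set V, Block M X → VSh C (sub M X) fun i => p i) ∧
  (VSh C M p → Sh C M p) ∧
  ((∀ i j, i ≠ j → Even (M i j)) → (VSh C M p ↔ Sh C M p))

/-- the Shephard groups of type affine `A` with the order `c` are in `C` -/
def AffA (c : ℕ) : Prop := ∀ n : ℕ, 3 ≤ n → Sh C (cyc n) fun _ => c

/-- the virtual Shephard groups of type `A` with the order `c` are in `C` -/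
def VirtualTypeA (c : ℕ) : Prop := ∀ n : ℕ, VSh C (CoxeterMatrix.A n) fun _ => c

/-- the virtual Shephard groups of type affine `A` with the order `c` are in `C` -/
def VirtualAffA (c : ℕ) : Prop := ∀ n : ℕ, 3 ≤ n → VSh C (cyc n) fun _ => c

/-- the Shephard groups of type `B` with the orders `c` (long roots) and `e` (short roots) are in `C` -/
def TypeB (c e : ℕ) : Prop := ∀ n : ℕ, 2 ≤ n → Sh C (CoxeterMatrix.B n) (ordB n c e)

/-- the virtual Shephard groups of type `B` with the orders `c` (long roots) and `e` (short roots) are
in `C` -/
def VirtualTypeB (c e : ℕ) : Prop := ∀ n : ℕ, 2 ≤ n → VSh C (CoxeterMatrix.B n) (ordB n c e)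

/-- the virtual Shephard groups of type `D` with the order `c` are in `C` -/
def VirtualTypeD (c : ℕ) : Prop := ∀ n : ℕ, 4 ≤ n → VSh C (typeD n) fun _ => c

/-- the Shephard groups of type affine `B` with the orders `c` (long roots) and `e` (short roots) are
in `C` -/
def AffB (c e : ℕ) : Prop :=
  ∀ n : ℕ, 1 ≤ n → Sh C (cla n true false) (ordCl n true false c e e)

/-- the virtual Shephard groups of type affine `B` with the orders `c` (long roots) and `e` (short
roots) are in `C` -/
def VirtualAffB (c e : ℕ) : Prop :=
  ∀ n : ℕ, 1 ≤ n → VSh C (cla n true false) (ordCl n true false c e e)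

/-- the Shephard groups of type affine `C` with the order `c` for the long roots and orders in `E` for
the short roots are in `C` -/
def AffC (c : ℕ) (E : Set ℕ) : Prop := ∀ n : ℕ, 2 ≤ n → ∀ e ∈ E, ∀ e' ∈ E,
  Sh C (cla n false false) (ordCl n false false c e e')

/-- the virtual Shephard groups of type affine `C` with the order `c` for the long roots and orders in
`E` for the short roots are in `C` -/
def VirtualAffC (c : ℕ) (E : Set ℕ) : Prop := ∀ n : ℕ, 2 ≤ n → ∀ e ∈ E, ∀ e' ∈ E,
  VSh C (cla n false false) (ordCl n false false c e e')

/-- the Shephard groups of type affine `D` with the order `c` are in `C` -/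
def AffD (c : ℕ) : Prop := ∀ n : ℕ, 2 ≤ n → Sh C (cla n true true) fun _ => c

/-- the virtual Shephard groups of type affine `D` with the order `c` are in `C` -/
def VirtualAffD (c : ℕ) : Prop := ∀ n : ℕ, 2 ≤ n → VSh C (cla n true true) fun _ => c

end

/-- Let `C` be a class of groups with the closure properties `ClosedE C` which contains the Coxeter
groups of finite rank.

1. Let `C` contain the semidirect products of free groups of finite rank with the infinite cyclic group.
Then the virtual braid groups are in `C`. If each block of `M`, of finite rank, is contained in a set of
generators of type `A`, `B` or affine `A`, or with at most two elements, then the virtual Artin group of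
`M` is in `C`.
2. Let `M` be a Coxeter matrix of finite rank with admissible orders `p`.
 a. If `M` is locally reducible and has no label `3`, or if `p = 2`, then the virtual Shephard group is
 in `C`.
 b. The virtual Shephard group of `M` is in `C` if and only if the virtual Shephard groups of the blocks
 of `M` are in `C`.
 c. If the virtual Shephard group is in `C`, so is the Shephard group. The converse holds if all labels
 are even or infinite.
3. Let `c` be even, the order for the long roots. The virtual Shephard groups of one of the following
types are in `C` if and only if the Shephard groups of the types listed after it are in `C`.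
 a. `A`: affine `A`;
 b. affine `A`: affine `A`;
 c. `D`: affine `A` and affine `D`;
 d. affine `D`: affine `A` and affine `D`;
 e. `B` with the even order `e` for the short roots: affine `A`, and `B` with the order `e`;
 f. affine `B` with the even order `e` for the short roots: affine `A`, affine `D`, and affine `B` with
 the order `e`;
 g. affine `C` with orders in the nonempty set `E` of even numbers for the short roots: affine `A`, and
 affine `C` with orders in `E`. -/
theorem result (C : ∀ (G : Type) [Group G], Prop) (hC : ClosedE C)
    (hcox : ∀ (V : Type) [Finite V] (M : CoxeterMatrix V), C M.Group) :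
    ((∀ (m : ℕ) (φ : MulAut (FreeGroup (Fin m))), C (FreeByCyclic m φ)) →
      (∀ n : ℕ, C (VirtualArtin (CoxeterMatrix.A n))) ∧
      ∀ (V : Type) [Fintype V] (M : CoxeterMatrix V),
        (∀ X : Set V, Block M X → ∃ Y : Set V, X ⊆ Y ∧ Elementary (sub M Y)) →
          C (VirtualArtin M)) ∧
    (∀ (V : Type) [Fintype V] (M : CoxeterMatrix V) (p : V → ℕ), Admissible M p →
      OneMatrix C M p) ∧
    ∀ c : ℕ, Even c →
      (VirtualTypeA C c ↔ AffA C c) ∧
      (VirtualAffA C c ↔ AffA C c) ∧
      (VirtualTypeD C c ↔ AffA C c ∧ AffD C c) ∧
      (VirtualAffD C c ↔ AffA C c ∧ AffD C c) ∧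
      (∀ e : ℕ, Even e → (VirtualTypeB C c e ↔ AffA C c ∧ TypeB C c e) ∧
        (VirtualAffB C c e ↔ AffA C c ∧ AffD C c ∧ AffB C c e)) ∧
      ∀ E : Set ℕ, (∀ e ∈ E, Even e) → E.Nonempty →
        (VirtualAffC C c E ↔ AffA C c ∧ AffC C c E) := by
  refine ⟨fun hT => ?_, fun V _ M p hp => ?_, fun c hc => ⟨Pool.Agent.H53.VS.F.vs_A_iff hC hcox c hc,
    Pool.Agent.H53.CL.F.vs_cyc_iff hC hcox c hc, Pool.Agent.H53.CL.F.vs_typeD_iff hC hcox c hc,
    Pool.Agent.H53.CL.F.vs_affD_iff hC hcox c hc,
    fun e he => ⟨Pool.Agent.H53.CL.F.vs_B_iff hC hcox c e hc he,
      Pool.Agent.H53.CL.F.vs_affB_iff hC hcox c e hc he⟩,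
    fun E hE hne => Pool.Agent.H53.CL.F.vs_affC_iff' hC hcox c hc E hE hne⟩⟩
  · have hT' := Pool.Agent.H53.BR.FJ.tor_of_free hT
    have hcyc : ∀ n : ℕ, 3 ≤ n → C (Artin (cyc n)) := Pool.Agent.H53.BR.FJ.cyc_mem hC hT'
    have hB : ∀ n : ℕ, 2 ≤ n → C (Artin (CoxeterMatrix.B n)) := fun n hn =>
      Pool.Agent.H53.BR.FJ.B_mem hC hT' n (by omega)
    exact ⟨fun n => F.va_elem hC hcox hcyc hB _ fun X _ => ⟨Set.univ, Set.subset_univ _,
      Or.inr (Or.inl ⟨n, Equiv.Set.univ _, fun _ _ => rfl⟩)⟩,
      fun V _ M h => F.va_elem hC hcox hcyc hB M h⟩
  · classical
    have hg : Pool.Agent.R665.She.Good M p := ⟨hp.1, hp.2⟩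
    refine ⟨fun hL h3 => F.vs_locred hC hcox M p hg hL fun i j h => absurd h (h3 i j),
      Pool.Agent.H53.VS.F.vs_flat p hC hcox, ?_, Pool.Agent.H53.VS.F.sh_of_vs p hC hcox hg,
      Pool.Agent.H53.VS.F.vs_even p hC hcox hg⟩
    have h1 := F.vs_comp_iff hC hcox M p hg
    exact ⟨fun h X hX => h1.1 h X hX.1 hX.2, fun h => h1.2 fun X h2 h3 => h X ⟨h2, h3⟩⟩

end Pool.Agent.Results.MP_6374fb_al.VirtualShephardGroups
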